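import Pool.Agent.Helper74.UB.Goals3

namespace Pool.Agent.Helper2.UB

open Finset Equiv Helper28.VF Pool.Agent.Helper74.UB
open scoped Classical

theorem key {V : Type} {L : Lay V} (A : L.Ax) (v k : V) (hk : L.up v k) :
    ∃ k', L.up (L.e v) k' ∧ ¬ L.up (L.e v) (L.e.symm k') ∧
      (L.up v k' → k' = k ∨ L.up v (L.e k)) ∧
      (¬ L.up v k' → L.up v (L.e.symm k') → k' = L.e k ∨ L.up v (L.e k)) := by
  have hr : L.row v < L.r1 := by
    have h1 := A.up_row v k hk
    have h2 := (A.bnd k).2
    omega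
  have hr' : L.row (L.e v) < L.r1 := by rw [A.row_e]; exact hr
  obtain ⟨k', ⟨h1, h2⟩, _⟩ := A.ul (L.e v) hr'
  obtain ⟨k0, hk0, huniq⟩ := A.ur v hr
  refine ⟨k', h1, h2, ?_, ?_⟩
  · intro h3
    by_cases h4 : L.up v (L.e k)
    · exact Or.inr h4
    · left
      have h5 : ¬ L.up v (L.e k') := fun h6 => A.cross v k' ⟨h6, h1⟩
      rw [huniq k' ⟨h3, h5⟩, huniq k ⟨hk, h4⟩]
  · intro h3 h4
    by_cases h5 : L.up v (L.e k)
    · exact Or.inr h5
    · left
      have h6 : ¬ L.up v (L.e (L.e.symm k')) := by rwa [Equiv.apply_symm_apply]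
      have h7 : L.e.symm k' = k := by rw [huniq _ ⟨h4, h6⟩, huniq k ⟨hk, h5⟩]
      rw [← h7, Equiv.apply_symm_apply]

theorem east {V : Type} {L : Lay V} (A : L.Ax) (v k : V) (hk : L.up v k) :
    L.up (L.e v) k ∨ L.up v (L.e k) ∨ L.up (L.e v) (L.e k) := by
  obtain ⟨k', h1, h2, h3, h4⟩ := key A v k hk
  have h5 := A.west (L.e v) k' h1
  rw [Equiv.symm_apply_apply] at h5
  rcases h5 with h5 | h5 | h5
  · rcases h3 h5 with h6 | h6
    · left; rw [← h6]; exact h1
    · exact Or.inr (Or.inl h6)
  · exact absurd h5 h2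
  · by_cases h7 : L.up v k'
    · rcases h3 h7 with h6 | h6
      · left; rw [← h6]; exact h1
      · exact Or.inr (Or.inl h6)
    · rcases h4 h7 h5 with h6 | h6
      · right; right; rw [← h6]; exact h1
      · exact Or.inr (Or.inl h6)

theorem eastT {V : Type} {L : Lay V} (A : L.Ax) (v k : V) (hk : L.up v k)
    (ht : ∀ k', L.up (L.e v) k' → L.up (L.e.symm (L.e v)) k' ∨ L.up (L.e v) (L.e.symm k')) :
    L.up (L.e v) k ∨ L.up v (L.e k) := by
  obtain ⟨k', h1, h2, h3, h4⟩ := key A v k hk
  have h5 := ht k' h1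
  rw [Equiv.symm_apply_apply] at h5
  rcases h5 with h5 | h5
  · rcases h3 h5 with h6 | h6
    · left; rw [← h6]; exact h1
    · exact Or.inr h6
  · exact absurd h5 h2

theorem symm_iter {V : Type} (e : Perm V) (n : ℕ) (v w : V) (h : e^[n] w = v) :
    e.symm^[n] v = w := by
  induction n generalizing v w with
  | zero => simpa using h.symm
  | succ n ih =>
    rw [Function.iterate_succ_apply'] at h
    rw [Function.iterate_succ_apply]
    apply ih
    rw [← h, Equiv.symm_apply_apply]

theorem flip_ax {V : Type} {L : Lay V} (h : ℕ) (A : L.Ax) : (L.flip h).Ax where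
  lt := by
    have := A.lt
    show (h : ℤ) - L.r1 < h - L.r0
    omega
  ne := A.ne
  bnd v := by
    have := A.bnd v
    show (h : ℤ) - L.r1 ≤ h - L.row v ∧ (h : ℤ) - L.row v ≤ h - L.r0
    omega
  row_e v := by
    show (h : ℤ) - L.row (L.e.symm v) = h - L.row v
    have := A.row_e (L.e.symm v)
    rw [Equiv.apply_symm_apply] at this
    omega
  cyc v w hvw := by
    have h1 : L.row w = L.row v := by
      have : (h : ℤ) - L.row v = h - L.row w := hvw
      omega
    obtain ⟨n, hn⟩ := A.cyc w v h1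
    exact ⟨n, symm_iter L.e n v w hn⟩
  e1 v := by
    show L.e.symm v ≠ v
    intro h1
    apply A.e1 v
    rw [Equiv.symm_apply_eq] at h1
    exact h1.symm
  e2 v := by
    show L.e.symm (L.e.symm v) ≠ v
    intro h1
    apply A.e2 v
    rw [Equiv.symm_apply_eq, Equiv.symm_apply_eq] at h1
    exact h1.symm
  up_row v k h1 := by
    show (h : ℤ) - L.row k = h - L.row v + 1
    have := A.up_row k v h1
    omega
  west v k h1 := by
    show L.up k (L.e.symm.symm v) ∨ L.up (L.e.symm.symm k) v ∨
      L.up (L.e.symm.symm k) (L.e.symm.symm v)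
    rw [Equiv.symm_symm]
    rcases east A k v h1 with h2 | h2 | h2
    · exact Or.inr (Or.inl h2)
    · exact Or.inl h2
    · exact Or.inr (Or.inr h2)
  cross v k := by
    show ¬ (L.up (L.e.symm k) v ∧ L.up k (L.e.symm v))
    have := A.cross (L.e.symm k) (L.e.symm v)
    rwa [Equiv.apply_symm_apply, Equiv.apply_symm_apply] at this
  ul v h1 := by
    have h2 : L.r0 < L.row v := by
      have : (h : ℤ) - L.row v < h - L.r0 := h1
      omega
    exact A.dr v h2
  ur v h1 := by
    have h2 : L.r0 < L.row v := by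
      have : (h : ℤ) - L.row v < h - L.r0 := h1
      omega
    exact A.dl v h2
  dl v h1 := by
    have h2 : L.row v < L.r1 := by
      have : (h : ℤ) - L.r1 < h - L.row v := h1
      omega
    exact A.ur v h2
  dr v h1 := by
    have h2 : L.row v < L.r1 := by
      have : (h : ℤ) - L.r1 < h - L.row v := h1
      omega
    exact A.ul v h2

theorem flip_flat {V : Type} {L : Lay V} {N h : ℕ} {f : ℤ → ZMod N → V} (A : L.Ax)
    (hodd : Odd h) (B : Flat L N h f) : Flat (L.flip h) N h (flipF h f) where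
  row r i h0 h1 := by
    show (h : ℤ) - L.row (f ((h : ℤ) - (r : ℤ)) (-i)) = r
    have hc : (h : ℤ) - (r : ℤ) = ((h - r : ℕ) : ℤ) := by omega
    rw [hc, B.row (h - r) (-i) (Nat.zero_le _) (Nat.sub_le _ _)]
    omega
  surj v h0 h1 := by
    have h0' : 0 ≤ (h : ℤ) - L.row v := h0
    have h1' : (h : ℤ) - L.row v ≤ h := h1
    obtain ⟨i, hi⟩ := B.surj v (by omega) (by omega)
    refine ⟨-i, ?_⟩
    show f (h - ((h : ℤ) - L.row v)) (- -i) = v
    rw [neg_neg, sub_sub_cancel]
    exact hi
  inj r i j h0 h1 h2 := by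
    have h2' : f ((h : ℤ) - (r : ℤ)) (-i) = f ((h : ℤ) - (r : ℤ)) (-j) := h2
    have hc : (h : ℤ) - (r : ℤ) = ((h - r : ℕ) : ℤ) := by omega
    rw [hc] at h2'
    have h3 := B.inj (h - r) (-i) (-j) (Nat.zero_le _) (Nat.sub_le _ _) h2'
    exact neg_injective h3
  e r i h0 h1 := by
    show L.e.symm (f ((h : ℤ) - (r : ℤ)) (-i)) = f ((h : ℤ) - (r : ℤ)) (-(i + 1))
    have hc : (h : ℤ) - (r : ℤ) = ((h - r : ℕ) : ℤ) := by omega
    rw [hc, Equiv.symm_apply_eq, B.e (h - r) _ (Nat.zero_le _) (Nat.sub_le _ _)]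
    congr 1
    ring
  upS r i k h0 h1 h2 := by
    show L.up k (f ((h : ℤ) - (r : ℤ)) (-i)) ↔ k = f ((h : ℤ) - ((r : ℤ) + 1)) (-i)
    obtain ⟨m, hm⟩ : ∃ m : ℕ, h = m + 1 + r := ⟨h - r - 1, by omega⟩
    have hc : (h : ℤ) - (r : ℤ) = (m : ℤ) + 1 := by omega
    have hc' : (h : ℤ) - ((r : ℤ) + 1) = (m : ℤ) := by omega
    have hev : Even m := by
      obtain ⟨a, ha⟩ := hodd
      obtain ⟨b, hb⟩ := h2
      exact ⟨a - b, by omega⟩
    have hrow : ∀ j, L.row (f ((m : ℤ) + 1) j) = (m : ℤ) + 1 := by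
      intro j
      have := B.row (m + 1) j (Nat.zero_le _) (by omega)
      push_cast at this
      exact this
    have hinj : ∀ j j', f ((m : ℤ) + 1) j = f ((m : ℤ) + 1) j' → j = j' := by
      intro j j' hj
      apply B.inj (m + 1) j j' (Nat.zero_le _) (by omega)
      push_cast
      exact hj
    rw [hc, hc']
    constructor
    · intro h3
      have h4 := A.up_row _ _ h3
      rw [hrow] at h4
      obtain ⟨j, hj⟩ := B.surj k (by omega) (by omega)
      have h5 : L.row k = (m : ℤ) := by omega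
      rw [h5] at hj
      rw [← hj] at h3
      have h6 := (B.upS m j _ (Nat.zero_le _) (by omega) hev).1 h3
      rw [← hj, hinj _ _ h6]
    · intro h3
      rw [h3, B.upS m _ _ (Nat.zero_le _) (by omega) hev]
  upT r i k h0 h1 h2 := by
    show L.up k (f ((h : ℤ) - (r : ℤ)) (-i)) ↔ k = f ((h : ℤ) - ((r : ℤ) + 1)) (-i) ∨
      k = f ((h : ℤ) - ((r : ℤ) + 1)) (-(i + 1))
    obtain ⟨m, hm⟩ : ∃ m : ℕ, h = m + 1 + r := ⟨h - r - 1, by omega⟩
    have hc : (h : ℤ) - (r : ℤ) = (m : ℤ) + 1 := by omega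
    have hc' : (h : ℤ) - ((r : ℤ) + 1) = (m : ℤ) := by omega
    have hev : ¬ Even m := by
      rw [Nat.not_even_iff_odd] at h2 ⊢
      obtain ⟨a, ha⟩ := hodd
      obtain ⟨b, hb⟩ := h2
      exact ⟨a - b - 1, by omega⟩
    have hrow : ∀ j, L.row (f ((m : ℤ) + 1) j) = (m : ℤ) + 1 := by
      intro j
      have := B.row (m + 1) j (Nat.zero_le _) (by omega)
      push_cast at this
      exact this
    have hinj : ∀ j j', f ((m : ℤ) + 1) j = f ((m : ℤ) + 1) j' → j = j' := by
      intro j j' hj
      apply B.inj (m + 1) j j' (Nat.zero_le _) (by omega)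
      push_cast
      exact hj
    rw [hc, hc']
    constructor
    · intro h3
      have h4 := A.up_row _ _ h3
      rw [hrow] at h4
      obtain ⟨j, hj⟩ := B.surj k (by omega) (by omega)
      have h5 : L.row k = (m : ℤ) := by omega
      rw [h5] at hj
      rw [← hj] at h3
      rcases (B.upT m j _ (Nat.zero_le _) (by omega) hev).1 h3 with h6 | h6
      · left
        rw [← hj, hinj _ _ h6]
      · right
        rw [← hj]
        congr 1
        rw [neg_add, hinj _ _ h6]
        ring
    · rintro (h3 | h3)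
      · rw [h3, B.upT m _ _ (Nat.zero_le _) (by omega) hev]
        left; rfl
      · rw [h3, B.upT m _ _ (Nat.zero_le _) (by omega) hev]
        right
        congr 1
        ring

theorem flip_host {K h : ℕ} {V : Type} [Fintype V] {L : Lay V} {f : ℤ → ZMod (3 * 2 ^ K) → V}
    (H : Host K h L f) : Host K h (L.flip h) (flipF h f) where
  ax := flip_ax h H.ax
  K1 := H.K1
  hodd := H.hodd
  r0 := by
    show (h : ℤ) - L.r1 = -K
    rw [H.r1]; ring
  r1 := by
    show (h : ℤ) - L.r0 = h + K
    rw [H.r0]; ring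
  flat := flip_flat H.ax H.hodd H.flat
  top3 v h1 := by
    have h2 : L.row v = L.r0 := by
      have : (h : ℤ) - L.row v = h - L.r0 := h1
      omega
    show L.e.symm (L.e.symm (L.e.symm v)) = v
    rw [Equiv.symm_apply_eq, Equiv.symm_apply_eq, Equiv.symm_apply_eq]
    exact (H.bot3 v h2).symm
  bot3 v h1 := by
    have h2 : L.row v = L.r1 := by
      have : (h : ℤ) - L.row v = h - L.r1 := h1
      omega
    show L.e.symm (L.e.symm (L.e.symm v)) = v
    rw [Equiv.symm_apply_eq, Equiv.symm_apply_eq, Equiv.symm_apply_eq]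
    exact (H.top3 v h2).symm
  tri v k h1 h2 := by
    have h3 : (h : ℤ) - L.row v < 0 ∨ (h : ℤ) ≤ h - L.row v := h2
    have h1' : L.up k v := h1
    have h4 := H.ax.up_row k v h1'
    show L.up k (L.e.symm.symm v) ∨ L.up (L.e.symm.symm k) v
    rw [Equiv.symm_symm]
    refine (eastT H.ax k v h1' ?_).symm
    intro k' hk'
    refine H.tri (L.e k) k' hk' ?_
    rw [H.ax.row_e]
    omega
  up2 v h1 := by
    have h2 : (h : ℤ) ≤ h - L.row v := h1
    exact H.dn2 v (by omega)
  up3 v := H.dn3 v
  dn2 v h1 := by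
    have h2 : (h : ℤ) - L.row v ≤ 0 := h1
    exact H.up2 v (by omega)
  dn3 v := H.up3 v
  cap := by
    refine le_trans (le_of_eq ?_) H.cap
    congr 1
    apply Finset.filter_congr
    intro v _
    show ((h : ℤ) - L.row v < 0 ∨ (h : ℤ) < h - L.row v) ↔ (L.row v < 0 ∨ (h : ℤ) < L.row v)
    constructor <;> intro h1 <;> omega

theorem flip : StmtFlip := by
  intro K h V _ L f H
  refine ⟨flip_host H, ?_⟩
  intro D E F _ _ _ M dE dW dU dN B
  have aW : ∀ v, M.α (dW v) = dE v := by
    intro v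
    rw [← B.aE v]
    exact M.α_inv _
  have aN : ∀ v k, L.up v k → M.α (dN v k) = dU v k := by
    intro v k hk
    rw [← B.aU v k hk]
    exact M.α_inv _
  exact
    { vE := fun v => by
        show M.vt (dW (L.e.symm v)) = v
        rw [B.vW, Equiv.apply_symm_apply]
      vW := fun v => B.vE _
      vU := fun v k hk => B.vN k v hk
      vN := fun v k hk => B.vU k v hk
      aE := fun v => aW _
      aU := fun v k hk => aN k v hk
      cov := by
        intro d
        rcases B.cov d with ⟨v, hv⟩ | ⟨v, hv⟩ | ⟨v, k, hk, hv⟩ | ⟨v, k, hk, hv⟩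
        · right; left
          exact ⟨L.e v, by rw [hv]; show dE v = dE (L.e.symm (L.e v)); rw [Equiv.symm_apply_apply]⟩
        · left
          exact ⟨L.e v, by rw [hv]; show dW v = dW (L.e.symm (L.e v)); rw [Equiv.symm_apply_apply]⟩
        · right; right; right
          exact ⟨k, v, hk, hv⟩
        · right; right; left
          exact ⟨k, v, hk, hv⟩
      E1 := fun v hv => by
        have h1 : L.row v = L.r0 := by
          have : (h : ℤ) - L.row v = h - L.r0 := hv
          omega
        have h2 : L.row (L.e.symm v) = L.r0 := by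
          have := H.ax.row_e (L.e.symm v)
          rw [Equiv.apply_symm_apply] at this
          omega
        exact B.W1 _ h2
      E2 := fun v k h1 h2 => B.W2 k (L.e.symm v) h1 h2
      W1 := fun v hv => by
        have h1 : L.row v = L.r1 := by
          have : (h : ℤ) - L.row v = h - L.r1 := hv
          omega
        have h2 : L.row (L.e.symm v) = L.r1 := by
          have := H.ax.row_e (L.e.symm v)
          rw [Equiv.apply_symm_apply] at this
          omega
        have h3 := B.E1 _ h2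
        show ph M (dE (L.e.symm v)) = dE (L.e.symm (L.e.symm.symm v))
        rw [h3, Equiv.symm_symm, Equiv.symm_apply_apply, Equiv.apply_symm_apply]
      W2 := fun u v h1 h2 => by
        show ph M (dE (L.e.symm v)) = dU v u
        have h3 := B.E2 (L.e.symm v) u
        rw [Equiv.apply_symm_apply] at h3
        exact h3 h1 h2
      U1 := fun v k h1 h2 => B.N1 k v h1 h2
      U2 := fun v k h1 h2 => by
        show ph M (dN k v) = dE (L.e.symm (L.e.symm.symm k))
        rw [Equiv.symm_symm, Equiv.symm_apply_apply]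
        exact B.N2 k v h1 h2
      N1 := fun v k h1 h2 => B.U1 k v h1 h2
      N2 := fun v k h1 h2 => B.U2 k v h1 h2 }

end Pool.Agent.Helper2.UB
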